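import Pool.Agent.Q166.TB.Peak

/-!
# No finite constant with the Hadamard exponent in dimension at least three
-/

namespace Pool.Agent.Q166.TB

open Complex InnerProductSpace Metric Topology
open scoped Pointwise

noncomputable section

/-- The class `H`: harmonic functions on the unit ball with `sup |u| = 1`. -/
def ClassH (n : ℕ) : Set (EuclideanSpace ℝ (Fin n) → ℂ) :=
  {u | HarmonicOnNhd u (Metric.ball 0 1) ∧ supNorm u 1 = 1}

/-- There is a finite constant `K` such that `‖u‖_r ≤ K ‖u‖_ρ^β` for all `u` in `H`, with the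
Hadamard exponent `β = log r / log ρ`. -/
def HasConstant (n : ℕ) (ρ r : ℝ) : Prop :=
  ∃ K : ℝ, ∀ u ∈ ClassH n, supNorm u r ≤ K * supNorm u ρ ^ (Real.log r / Real.log ρ)

theorem rpow_beta {ρ r : ℝ} (hρ : 0 < ρ) (hρr : ρ < r) (hr : r < 1) :
    ρ ^ (Real.log r / Real.log ρ) = r := by
  have hlog : Real.log ρ ≠ 0 := by
    have := Real.log_neg hρ (hρr.trans hr)
    exact this.ne
  rw [Real.rpow_def_of_pos hρ, mul_div_cancel₀ _ hlog, Real.exp_log (hρ.trans hρr)]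

theorem beta_pos {ρ r : ℝ} (hρ : 0 < ρ) (hρr : ρ < r) (hr : r < 1) :
    0 < Real.log r / Real.log ρ :=
  div_pos_of_neg_of_neg (Real.log_neg (hρ.trans hρr) hr) (Real.log_neg hρ (hρr.trans hr))

theorem beta_lt_one {ρ r : ℝ} (hρ : 0 < ρ) (hρr : ρ < r) (hr : r < 1) :
    Real.log r / Real.log ρ < 1 := by
  have h1 := Real.log_neg hρ (hρr.trans hr)
  rw [div_lt_one_of_neg h1]
  exact Real.log_lt_log hρ hρr

variable {n : ℕ}

theorem supNorm_nonneg (u : EuclideanSpace ℝ (Fin n) → ℂ) (s : ℝ) : 0 ≤ supNorm u s := by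
  apply Real.sSup_nonneg
  rintro _ ⟨x, _, rfl⟩
  exact norm_nonneg _

theorem le_supNorm_of_mem {u : EuclideanSpace ℝ (Fin n) → ℂ} {s : ℝ}
    (hb : BddAbove ((fun x => ‖u x‖) '' Metric.ball (0 : EuclideanSpace ℝ (Fin n)) s))
    {x : EuclideanSpace ℝ (Fin n)} (hx : ‖x‖ < s) : ‖u x‖ ≤ supNorm u s :=
  le_csSup hb ⟨x, mem_ball_zero_iff.mpr hx, rfl⟩

theorem supNorm_le {u : EuclideanSpace ℝ (Fin n) → ℂ} {s C : ℝ} (hs : 0 < s)
    (h : ∀ x, ‖x‖ < s → ‖u x‖ ≤ C) : supNorm u s ≤ C := by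
  apply csSup_le
  · exact ⟨_, ⟨0, mem_ball_self hs, rfl⟩⟩
  · rintro _ ⟨x, hx, rfl⟩
    exact h x (mem_ball_zero_iff.mp hx)

theorem bddAbove_of {u : EuclideanSpace ℝ (Fin n) → ℂ} {s C : ℝ}
    (h : ∀ x, ‖x‖ < s → ‖u x‖ ≤ C) :
    BddAbove ((fun x => ‖u x‖) '' Metric.ball (0 : EuclideanSpace ℝ (Fin n)) s) := by
  refine ⟨C, ?_⟩
  rintro _ ⟨x, hx, rfl⟩
  exact h x (mem_ball_zero_iff.mp hx)

theorem le_supNorm_of_le {u : EuclideanSpace ℝ (Fin n) → ℂ} (hu : Continuous u) {s : ℝ}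
    (hs : 0 < s)
    (hb : BddAbove ((fun x => ‖u x‖) '' Metric.ball (0 : EuclideanSpace ℝ (Fin n)) s))
    {x : EuclideanSpace ℝ (Fin n)} (hx : ‖x‖ ≤ s) : ‖u x‖ ≤ supNorm u s := by
  have h1 : Filter.Tendsto (fun t : ℝ => ‖u (t • x)‖) (nhdsWithin 1 (Set.Iio 1))
      (nhds ‖u ((1 : ℝ) • x)‖) := by
    apply Filter.Tendsto.mono_left _ nhdsWithin_le_nhds
    apply Continuous.tendsto
    fun_prop
  rw [one_smul] at h1
  refine le_of_tendsto h1 ?_
  have h2 : Set.Ioo (0 : ℝ) 1 ∈ nhdsWithin (1 : ℝ) (Set.Iio 1) := Ioo_mem_nhdsLT one_pos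
  filter_upwards [h2] with t ht
  apply le_supNorm_of_mem hb
  rw [norm_smul, Real.norm_of_nonneg ht.1.le]
  rcases eq_or_lt_of_le hx with h | h
  · rw [h]
    nlinarith [ht.2]
  · nlinarith [ht.2, ht.1, norm_nonneg x]

theorem supNorm_smul (u : EuclideanSpace ℝ (Fin n) → ℂ) (s c : ℝ) (hc : 0 ≤ c) :
    supNorm (c • u) s = c * supNorm u s := by
  unfold supNorm
  have h : (fun x => ‖(c • u) x‖) '' Metric.ball (0 : EuclideanSpace ℝ (Fin n)) s
      = c • ((fun x => ‖u x‖) '' Metric.ball (0 : EuclideanSpace ℝ (Fin n)) s) := by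
    ext y
    constructor
    · rintro ⟨x, hx, rfl⟩
      refine ⟨‖u x‖, ⟨x, hx, rfl⟩, ?_⟩
      simp only [Pi.smul_apply, smul_eq_mul]
      rw [norm_smul, Real.norm_of_nonneg hc]
    · rintro ⟨_, ⟨x, hx, rfl⟩, rfl⟩
      refine ⟨x, hx, ?_⟩
      simp only [Pi.smul_apply, smul_eq_mul]
      rw [norm_smul, Real.norm_of_nonneg hc]
  rw [h, Real.sSup_smul_of_nonneg hc, smul_eq_mul]

section

variable (a b c : Fin n) (M : ℕ)

theorem continuous_peak : Continuous (peak a b c M) := by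
  unfold peak
  fun_prop

theorem harmonic_peak (hab : a ≠ b) (hac : a ≠ c) (hbc : b ≠ c) (s : Set (EuclideanSpace ℝ (Fin n))) :
    HarmonicOnNhd (peak a b c M) s := by
  intro x _
  have hterm : ∀ t : ℝ, HarmonicAt (fun x => (ell a b c t x) ^ (2 * M ^ 4) *
      (1 - (ell a b c t x) ^ 2)) x := by
    intro t
    set k := 2 * M ^ 4 with hk
    have h1 : ∀ z : ℂ, HasDerivAt (fun z : ℂ => z ^ k * (1 - z ^ 2))
        ((k : ℂ) * z ^ (k - 1) * (1 - z ^ 2) + z ^ k * (-(2 * z))) z := by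
      intro z
      have e1 := (hasDerivAt_pow k z).mul (((hasDerivAt_pow 2 z).const_sub 1))
      refine e1.congr_deriv ?_
      norm_num
    have h2 : ∀ z : ℂ, HasDerivAt (fun z : ℂ => (k : ℂ) * z ^ (k - 1) * (1 - z ^ 2) + z ^ k * (-(2 * z)))
        (deriv (fun z : ℂ => (k : ℂ) * z ^ (k - 1) * (1 - z ^ 2) + z ^ k * (-(2 * z))) z) z := by
      intro z
      apply DifferentiableAt.hasDerivAt
      fun_prop
    exact harmonic_comp (fun z => z ^ k * (1 - z ^ 2)) _ _ (by fun_prop) h1 h2 (ell a b c t)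
      (ell_null a b c hab hac hbc t) x
  have hsum : ∀ F : Finset ℕ, HarmonicAt (fun x => ∑ j ∈ F,
      ((ell a b c (node M j) x) ^ (2 * M ^ 4) * (1 - (ell a b c (node M j) x) ^ 2))) x := by
    intro F
    induction F using Finset.induction_on with
    | empty => exact harmonicAt_const (0 : ℂ)
    | insert j F hj ih =>
      simp_rw [Finset.sum_insert hj]
      exact (hterm (node M j)).add ih
  have h3 : HarmonicAt ((1 / 8 : ℝ) • (fun x => ∑ j ∈ Finset.range M,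
      ((ell a b c (node M j) x) ^ (2 * M ^ 4) * (1 - (ell a b c (node M j) x) ^ 2)))) x :=
    (hsum _).const_smul
  have h4 : peak a b c M = ((1 / 8 : ℝ) • (fun x => ∑ j ∈ Finset.range M,
      ((ell a b c (node M j) x) ^ (2 * M ^ 4) * (1 - (ell a b c (node M j) x) ^ 2)))) := by
    funext x
    simp only [peak, Pi.smul_apply, Complex.real_smul]
    push_cast
    ring
  rw [h4]
  exact h3

theorem norm_peak_le_pow (hab : a ≠ b) (hac : a ≠ c) (hbc : b ≠ c) {ρ : ℝ} (hρ : 0 ≤ ρ)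
    (hρ1 : ρ ≤ 1) (x : EuclideanSpace ℝ (Fin n)) (hx : ‖x‖ ≤ ρ) :
    ‖peak a b c M x‖ ≤ M / 4 * ρ ^ (2 * M ^ 4) := by
  have hterm : ∀ j ∈ Finset.range M, ‖(ell a b c (node M j) x) ^ (2 * M ^ 4) *
      (1 - (ell a b c (node M j) x) ^ 2)‖ ≤ 2 * ρ ^ (2 * M ^ 4) := by
    intro j _
    have h1 : ‖ell a b c (node M j) x‖ ≤ ρ := by
      have h2 : ‖ell a b c (node M j) x‖ ^ 2 ≤ ρ ^ 2 := by
        rw [ell_apply, norm_w_sq]
        have h3 := coord_sq_le a b c hab hac hbc x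
        have h4 : ‖x‖ ^ 2 ≤ ρ ^ 2 := pow_le_pow_left₀ (norm_nonneg _) hx 2
        have h5 : (Real.cos (node M j) * x a + Real.sin (node M j) * x b) ^ 2
            + (Real.sin (node M j) * x a - Real.cos (node M j) * x b) ^ 2
            = x a ^ 2 + x b ^ 2 := by
          have s1 := Real.sin_sq_add_cos_sq (node M j)
          have : (Real.cos (node M j) * x a + Real.sin (node M j) * x b) ^ 2
            + (Real.sin (node M j) * x a - Real.cos (node M j) * x b) ^ 2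
            = (Real.sin (node M j) ^ 2 + Real.cos (node M j) ^ 2) * (x a ^ 2 + x b ^ 2) := by ring
          rw [this, s1, one_mul]
        nlinarith [sq_nonneg (Real.sin (node M j) * x a - Real.cos (node M j) * x b)]
      exact (pow_le_pow_iff_left₀ (norm_nonneg _) hρ two_ne_zero).mp h2
    rw [norm_mul, norm_pow]
    have h6 : ‖1 - (ell a b c (node M j) x) ^ 2‖ ≤ 2 := by
      refine (norm_sub_le _ _).trans ?_
      rw [norm_one, norm_pow]
      have : ‖ell a b c (node M j) x‖ ^ 2 ≤ 1 := pow_le_one₀ (norm_nonneg _) (h1.trans hρ1)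
      linarith
    calc _ ≤ ρ ^ (2 * M ^ 4) * 2 := by
          apply mul_le_mul (pow_le_pow_left₀ (norm_nonneg _) h1 _) h6 (norm_nonneg _)
            (pow_nonneg hρ _)
      _ = _ := by ring
  unfold peak
  rw [norm_mul]
  have h7 := norm_sum_le_of_le _ hterm
  rw [Finset.sum_const, Finset.card_range, nsmul_eq_mul] at h7
  have h11 : ‖(1 / 8 : ℂ)‖ = 1 / 8 := by norm_num
  rw [h11]
  linarith

theorem peak_axis (hac : a ≠ c) (hbc : b ≠ c) (r : ℝ) :
    peak a b c M (EuclideanSpace.single c r) = ((M / 8 * (r ^ (2 * M ^ 4) * (1 - r ^ 2)) : ℝ) : ℂ) := by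
  have h1 : ∀ j, ell a b c (node M j) (EuclideanSpace.single c r) = (r : ℂ) := by
    intro j
    rw [ell_apply]
    simp [hac, hbc]
  unfold peak
  simp_rw [h1]
  rw [Finset.sum_const, Finset.card_range, nsmul_eq_mul]
  push_cast
  ring

end

/-- **No finite constant in dimension at least three.** -/
theorem not_hasConstant (n : ℕ) (hn : 3 ≤ n) (ρ r : ℝ) (hρ : 0 < ρ) (hρr : ρ < r) (hr : r < 1) :
    ¬ HasConstant n ρ r := by
  rintro ⟨K, hK⟩
  set β := Real.log r / Real.log ρ with hβ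
  have hβ0 : 0 < β := beta_pos hρ hρr hr
  have hβ1 : β < 1 := beta_lt_one hρ hρr hr
  have hr0 : 0 < r := hρ.trans hρr
  set a : Fin n := ⟨0, by omega⟩
  set b : Fin n := ⟨1, by omega⟩
  set c : Fin n := ⟨2, by omega⟩
  have hab : a ≠ b := by simp [a, b]
  have hac : a ≠ c := by simp [a, c]
  have hbc : b ≠ c := by simp [b, c]
  have h1r : 0 < 1 - r ^ 2 := by nlinarith
  -- the inequality for the normalised peaked functions
  have hmain : ∀ M : ℕ, 1 ≤ M → (M : ℝ) ^ (1 - β) ≤ 8 * |K| / (1 - r ^ 2) := by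
    intro M hM
    have hM0 : (0 : ℝ) < M := by exact_mod_cast hM
    have hM1 : (1 : ℝ) ≤ M := by exact_mod_cast hM
    set u := peak a b c M with hu
    have hb1 : ∀ x : EuclideanSpace ℝ (Fin n), ‖x‖ < 1 → ‖u x‖ ≤ 1 := fun x hx =>
      norm_peak_le_one a b c hab hac hbc M hM x hx.le
    have hbr : ∀ x : EuclideanSpace ℝ (Fin n), ‖x‖ < r → ‖u x‖ ≤ 1 := fun x hx =>
      hb1 x (hx.trans hr)
    have hval : ‖u (EuclideanSpace.single c r)‖ = M / 8 * (r ^ (2 * M ^ 4) * (1 - r ^ 2)) := by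
      rw [hu, peak_axis a b c M hac hbc r, Complex.norm_real, Real.norm_of_nonneg (by positivity)]
    have hnx : ‖(EuclideanSpace.single c r : EuclideanSpace ℝ (Fin n))‖ = r := by
      rw [show (EuclideanSpace.single c r : EuclideanSpace ℝ (Fin n)) = PiLp.single 2 c r from rfl, PiLp.norm_single, Real.norm_of_nonneg hr0.le]
    have hval0 : 0 < ‖u (EuclideanSpace.single c r)‖ := by
      rw [hval]; positivity
    set S := supNorm u 1 with hS
    have hSpos : 0 < S := lt_of_lt_of_le hval0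
      (le_supNorm_of_mem (bddAbove_of hb1) (by rw [hnx]; exact hr))
    have hS1 : S ≤ 1 := supNorm_le one_pos hb1
    have hvmem : (S⁻¹ • u) ∈ ClassH n := by
      refine ⟨(harmonic_peak a b c M hab hac hbc _).const_smul, ?_⟩
      rw [supNorm_smul _ _ _ (inv_nonneg.mpr hSpos.le), ← hS, inv_mul_cancel₀ hSpos.ne']
    have h1 := hK _ hvmem
    rw [supNorm_smul _ _ _ (inv_nonneg.mpr hSpos.le),
      supNorm_smul _ _ _ (inv_nonneg.mpr hSpos.le)] at h1
    have h2 : M / 8 * (r ^ (2 * M ^ 4) * (1 - r ^ 2)) ≤ supNorm u r := by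
      rw [← hval]
      exact le_supNorm_of_le (continuous_peak a b c M) hr0 (bddAbove_of hbr) hnx.le
    have h3 : supNorm u ρ ≤ M / 4 * ρ ^ (2 * M ^ 4) :=
      supNorm_le hρ (fun x hx =>
        norm_peak_le_pow a b c M hab hac hbc hρ.le (hρr.trans hr).le x hx.le)
    have h4 : (S⁻¹ * supNorm u ρ) ^ β ≤ (S⁻¹ * (M / 4 * ρ ^ (2 * M ^ 4))) ^ β := by
      apply Real.rpow_le_rpow _ _ hβ0.le
      · exact mul_nonneg (inv_nonneg.mpr hSpos.le) (supNorm_nonneg _ _)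
      · exact mul_le_mul_of_nonneg_left h3 (inv_nonneg.mpr hSpos.le)
    have h5 : (S⁻¹ * (M / 4 * ρ ^ (2 * M ^ 4))) ^ β = S⁻¹ ^ β * (M / 4) ^ β * r ^ (2 * M ^ 4) := by
      rw [Real.mul_rpow (inv_nonneg.mpr hSpos.le) (by positivity),
        Real.mul_rpow (by positivity) (by positivity)]
      have : (ρ ^ (2 * M ^ 4)) ^ β = r ^ (2 * M ^ 4) := by
        rw [← Real.rpow_natCast, ← Real.rpow_mul hρ.le, mul_comm, Real.rpow_mul hρ.le,
          rpow_beta hρ hρr hr, Real.rpow_natCast]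
      rw [this]
      ring
    have h6 : S⁻¹ * (M / 8 * (r ^ (2 * M ^ 4) * (1 - r ^ 2)))
        ≤ |K| * (S⁻¹ ^ β * (M / 4) ^ β * r ^ (2 * M ^ 4)) := by
      calc S⁻¹ * (M / 8 * (r ^ (2 * M ^ 4) * (1 - r ^ 2))) ≤ S⁻¹ * supNorm u r :=
            mul_le_mul_of_nonneg_left h2 (inv_nonneg.mpr hSpos.le)
        _ ≤ K * (S⁻¹ * supNorm u ρ) ^ β := h1
        _ ≤ |K| * (S⁻¹ * supNorm u ρ) ^ β := by
            apply mul_le_mul_of_nonneg_right (le_abs_self _)
            apply Real.rpow_nonneg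
            exact mul_nonneg (inv_nonneg.mpr hSpos.le) (supNorm_nonneg _ _)
        _ ≤ |K| * (S⁻¹ ^ β * (M / 4) ^ β * r ^ (2 * M ^ 4)) := by
            rw [← h5]
            exact mul_le_mul_of_nonneg_left h4 (abs_nonneg _)
    -- compare `S⁻¹ ^ β` with `S⁻¹`
    have h7 : S⁻¹ ^ β ≤ S⁻¹ := by
      have : (1 : ℝ) ≤ S⁻¹ := (one_le_inv₀ hSpos).mpr hS1
      calc S⁻¹ ^ β ≤ S⁻¹ ^ (1 : ℝ) := Real.rpow_le_rpow_of_exponent_le this hβ1.le
        _ = S⁻¹ := Real.rpow_one _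
    have h8 : ((M : ℝ) / 4) ^ β ≤ (M : ℝ) ^ β := by
      apply Real.rpow_le_rpow (by positivity) _ hβ0.le
      linarith
    have hrM : 0 < r ^ (2 * M ^ 4) := by positivity
    have h9 : S⁻¹ * (M / 8 * (r ^ (2 * M ^ 4) * (1 - r ^ 2)))
        ≤ S⁻¹ * (|K| * (M : ℝ) ^ β * r ^ (2 * M ^ 4)) := by
      refine h6.trans ?_
      have e1 : S⁻¹ ^ β * (M / 4) ^ β ≤ S⁻¹ * (M : ℝ) ^ β :=
        mul_le_mul h7 h8 (by positivity) (inv_nonneg.mpr hSpos.le)
      have e2 : S⁻¹ ^ β * (M / 4) ^ β * r ^ (2 * M ^ 4) ≤ S⁻¹ * (M : ℝ) ^ β * r ^ (2 * M ^ 4) :=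
        mul_le_mul_of_nonneg_right e1 hrM.le
      calc _ ≤ |K| * (S⁻¹ * (M : ℝ) ^ β * r ^ (2 * M ^ 4)) :=
            mul_le_mul_of_nonneg_left e2 (abs_nonneg _)
        _ = _ := by ring
    have h10 : (M : ℝ) / 8 * (r ^ (2 * M ^ 4) * (1 - r ^ 2)) ≤ |K| * (M : ℝ) ^ β * r ^ (2 * M ^ 4) :=
      le_of_mul_le_mul_left h9 (inv_pos.mpr hSpos)
    have h11 : (M : ℝ) / 8 * (1 - r ^ 2) ≤ |K| * (M : ℝ) ^ β := by
      have : ((M : ℝ) / 8 * (1 - r ^ 2)) * r ^ (2 * M ^ 4) ≤ (|K| * (M : ℝ) ^ β) * r ^ (2 * M ^ 4) := by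
        calc _ = (M : ℝ) / 8 * (r ^ (2 * M ^ 4) * (1 - r ^ 2)) := by ring
          _ ≤ _ := h10
      exact le_of_mul_le_mul_right this hrM
    have h12 : (M : ℝ) ^ (1 - β) = M / (M : ℝ) ^ β := by
      rw [Real.rpow_sub hM0, Real.rpow_one]
    rw [h12, div_le_div_iff₀ (Real.rpow_pos_of_pos hM0 _) h1r]
    nlinarith
  -- let `M` tend to infinity
  have hlim : Filter.Tendsto (fun M : ℕ => (M : ℝ) ^ (1 - β)) Filter.atTop Filter.atTop :=
    (tendsto_rpow_atTop (by linarith)).comp tendsto_natCast_atTop_atTop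
  obtain ⟨M, hM1, hM2⟩ := ((hlim.eventually_gt_atTop (8 * |K| / (1 - r ^ 2))).and
    (Filter.eventually_ge_atTop 1)).exists
  exact absurd (hmain M hM2) (not_le.mpr hM1)

end

end Pool.Agent.Q166.TB
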