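import Mathlib

/-!
# Peaked harmonic functions in dimension at least three
-/

namespace Pool.Agent.Q166.TB

open Complex InnerProductSpace Metric Topology

noncomputable section

/-- The supremum of `|u|` over the open ball of radius `s`. -/
def supNorm {n : ℕ} (u : EuclideanSpace ℝ (Fin n) → ℂ) (s : ℝ) : ℝ :=
  sSup ((fun x => ‖u x‖) '' Metric.ball (0 : EuclideanSpace ℝ (Fin n)) s)

/-- The real-linear functional `x ↦ x_c + i (cos t x_a + sin t x_b)`. -/
def ell {n : ℕ} (a b c : Fin n) (t : ℝ) : EuclideanSpace ℝ (Fin n) →L[ℝ] ℂ :=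
  Complex.ofRealCLM.comp (EuclideanSpace.proj c : EuclideanSpace ℝ (Fin n) →L[ℝ] ℝ) +
    (Complex.I : ℂ) • (Complex.ofRealCLM.comp
      (Real.cos t • (EuclideanSpace.proj a : EuclideanSpace ℝ (Fin n) →L[ℝ] ℝ) +
        Real.sin t • (EuclideanSpace.proj b : EuclideanSpace ℝ (Fin n) →L[ℝ] ℝ)))

theorem ell_apply {n : ℕ} (a b c : Fin n) (t : ℝ) (x : EuclideanSpace ℝ (Fin n)) :
    ell a b c t x = (x c : ℂ) + I * ((Real.cos t * x a + Real.sin t * x b : ℝ) : ℂ) := by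
  simp [ell]
  ring

/-- A polynomial function of a null functional is harmonic. -/
theorem harmonic_comp {n : ℕ} (φ φ' φ'' : ℂ → ℂ) (hφ : ContDiff ℝ 2 φ)
    (h1 : ∀ z, HasDerivAt φ (φ' z) z) (h2 : ∀ z, HasDerivAt φ' (φ'' z) z)
    (L : EuclideanSpace ℝ (Fin n) →L[ℝ] ℂ)
    (hL : ∑ i, (L (EuclideanSpace.basisFun (Fin n) ℝ i)) ^ 2 = 0) (x : EuclideanSpace ℝ (Fin n)) :
    HarmonicAt (fun x => φ (L x)) x := by
  have hcd : ContDiff ℝ 2 (fun x => φ (L x)) := hφ.comp L.contDiff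
  have hf1 : ∀ (y v : EuclideanSpace ℝ (Fin n)),
      fderiv ℝ (fun x => φ (L x)) y v = φ' (L y) * L v := by
    intro y v
    have h3 : HasFDerivAt (fun x => φ (L x))
        (((ContinuousLinearMap.toSpanSingleton ℂ (φ' (L y))).restrictScalars ℝ).comp L) y :=
      ((h1 (L y)).hasFDerivAt.restrictScalars ℝ).comp y L.hasFDerivAt
    rw [h3.fderiv]
    simp [mul_comm]
  have hf2 : ∀ (y v : EuclideanSpace ℝ (Fin n)),
      fderiv ℝ (fun y => φ' (L y) * L v) y v = φ'' (L y) * (L v) ^ 2 := by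
    intro y v
    have h3 : HasFDerivAt (fun x => φ' (L x))
        (((ContinuousLinearMap.toSpanSingleton ℂ (φ'' (L y))).restrictScalars ℝ).comp L) y :=
      ((h2 (L y)).hasFDerivAt.restrictScalars ℝ).comp y L.hasFDerivAt
    have h4 := h3.mul_const (L v)
    rw [h4.fderiv]
    simp
    ring
  refine ⟨hcd.contDiffAt, Filter.Eventually.of_forall (fun y => ?_)⟩
  rw [laplacian_eq_iteratedFDeriv_orthonormalBasis _ (EuclideanSpace.basisFun (Fin n) ℝ)]
  simp only [iteratedFDeriv_two_apply, Matrix.cons_val_zero, Matrix.cons_val_one, Pi.zero_apply]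
  have hdj : DifferentiableAt ℝ (fderiv ℝ (fun x => φ (L x))) y :=
    (hcd.contDiffAt.fderiv_right (m := 1) (by norm_num)).differentiableAt (by norm_num)
  have key : ∀ v : EuclideanSpace ℝ (Fin n), fderiv ℝ (fderiv ℝ (fun x => φ (L x))) y v v
      = φ'' (L y) * (L v) ^ 2 := by
    intro v
    have h5 : fderiv ℝ (fun w => fderiv ℝ (fun x => φ (L x)) w v) y v
        = fderiv ℝ (fderiv ℝ (fun x => φ (L x))) y v v := by
      rw [fderiv_clm_apply hdj (differentiableAt_const v)]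
      simp
    rw [← h5]
    have h6 : (fun w => fderiv ℝ (fun x => φ (L x)) w v) = fun w => φ' (L w) * L v := by
      funext w
      exact hf1 w v
    rw [h6, hf2]
  simp_rw [key, ← Finset.mul_sum, hL, mul_zero]

theorem ell_null {n : ℕ} (a b c : Fin n) (hab : a ≠ b) (hac : a ≠ c) (hbc : b ≠ c) (t : ℝ) :
    ∑ i, (ell a b c t (EuclideanSpace.basisFun (Fin n) ℝ i)) ^ 2 = 0 := by
  have h : ∀ i, (ell a b c t (EuclideanSpace.basisFun (Fin n) ℝ i)) ^ 2
      = (if i = c then 1 else 0) - (if i = a then ((Real.cos t : ℝ) : ℂ) ^ 2 else 0)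
        - (if i = b then ((Real.sin t : ℝ) : ℂ) ^ 2 else 0) := by
    intro i
    rw [ell_apply, EuclideanSpace.basisFun_apply]
    simp only [PiLp.single_apply]
    by_cases h1 : i = c
    · subst h1
      simp [hac, hbc, Ne.symm hac, Ne.symm hbc]
    · by_cases h2 : i = a
      · subst h2
        simp [hab, hac, Ne.symm hab, Ne.symm hac, mul_pow]
      · by_cases h3 : i = b
        · subst h3
          simp [hab, hbc, Ne.symm hab, Ne.symm hbc, mul_pow]
        · simp [h1, h2, h3, Ne.symm h1, Ne.symm h2, Ne.symm h3]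
  simp_rw [h, Finset.sum_sub_distrib]
  simp only [Finset.sum_ite_eq', Finset.mem_univ, if_true]
  have h4 : ((Real.cos t : ℝ) : ℂ) ^ 2 + ((Real.sin t : ℝ) : ℂ) ^ 2 = 1 := by
    have := Real.cos_sq_add_sin_sq t
    exact_mod_cast congrArg (fun t : ℝ => (t : ℂ)) this
  linear_combination -h4

theorem pow_mul_one_sub_le (y : ℝ) (hy0 : 0 ≤ y) (hy1 : y ≤ 1) (m : ℕ) :
    m * (y ^ m * (1 - y)) ≤ 1 := by
  have h1 : (1 - y) * ∑ i ∈ Finset.range m, y ^ i = 1 - y ^ m := by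
    have := mul_neg_geom_sum y m
    linarith
  have h2 : (m : ℝ) * y ^ m ≤ ∑ i ∈ Finset.range m, y ^ i := by
    have : ∀ i ∈ Finset.range m, y ^ m ≤ y ^ i := fun i hi =>
      pow_le_pow_of_le_one hy0 hy1 (Finset.mem_range.mp hi).le
    have h3 := Finset.sum_le_sum this
    simpa using h3
  have h4 := mul_le_mul_of_nonneg_left h2 (sub_nonneg.mpr hy1)
  have h5 : 0 ≤ y ^ m := pow_nonneg hy0 m
  nlinarith

/-- Lower bound for the sine at the nodes. -/
theorem sin_node_ge (M k : ℕ) (hk : 1 ≤ k) (hkM : k < M) :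
    2 / (M : ℝ) ≤ Real.sin (Real.pi * k / M) := by
  have hM : (0 : ℝ) < M := by exact_mod_cast (by omega : 0 < M)
  have hk' : (1 : ℝ) ≤ k := by exact_mod_cast hk
  have hkM' : (k : ℝ) + 1 ≤ M := by exact_mod_cast hkM
  have hpi := Real.pi_pos
  by_cases h : (2 * k : ℝ) ≤ M
  · have h1 : 2 / Real.pi * (Real.pi * k / M) ≤ Real.sin (Real.pi * k / M) := by
      apply Real.mul_le_sin (by positivity)
      rw [div_le_div_iff₀ hM two_pos]
      nlinarith
    refine le_trans ?_ h1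
    have h2 : 2 / Real.pi * (Real.pi * k / M) = 2 * k / M := by
      field_simp
    rw [h2]
    apply div_le_div_of_nonneg_right _ hM.le
    linarith
  · push Not at h
    have h1 : Real.sin (Real.pi * k / M) = Real.sin (Real.pi * (M - k) / M) := by
      rw [← Real.sin_pi_sub]
      congr 1
      field_simp
    rw [h1]
    have h3 : 2 / Real.pi * (Real.pi * (M - k) / M) ≤ Real.sin (Real.pi * (M - k) / M) := by
      apply Real.mul_le_sin
      · apply div_nonneg _ hM.le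
        nlinarith
      · rw [div_le_div_iff₀ hM two_pos]
        nlinarith
    refine le_trans ?_ h3
    have h2 : 2 / Real.pi * (Real.pi * (M - k) / M) = 2 * (M - k) / M := by
      field_simp
    rw [h2]
    apply div_le_div_of_nonneg_right _ hM.le
    linarith

/-- The nodes. -/
def node (M j : ℕ) : ℝ := Real.pi * j / M

theorem sin_node_sub (M j l : ℕ) (hj : j < M) (hl : l < M) (hjl : j ≠ l) :
    2 / (M : ℝ) ≤ |Real.sin (node M j - node M l)| := by
  rcases lt_or_gt_of_ne hjl with h | h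
  · have h1 : node M j - node M l = -(Real.pi * ((l - j : ℕ) : ℝ) / M) := by
      unfold node
      rw [Nat.cast_sub h.le]
      ring
    rw [h1, Real.sin_neg, abs_neg]
    exact (sin_node_ge M (l - j) (by omega) (by omega)).trans (le_abs_self _)
  · have h1 : node M j - node M l = Real.pi * ((j - l : ℕ) : ℝ) / M := by
      unfold node
      rw [Nat.cast_sub h.le]
      ring
    rw [h1]
    exact (sin_node_ge M (j - l) (by omega) (by omega)).trans (le_abs_self _)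

/-- The transversal coordinate. -/
def qq (X Y t : ℝ) : ℝ := Real.sin t * X - Real.cos t * Y

theorem qq_two (X Y t t' : ℝ) (P : ℝ) (hP : 0 ≤ P) (hP2 : P ^ 2 = X ^ 2 + Y ^ 2) :
    P * |Real.sin (t - t')| ≤ |qq X Y t| + |qq X Y t'| := by
  have h1 : (P * |Real.sin (t - t')|) ^ 2 ≤ (|qq X Y t| + |qq X Y t'|) ^ 2 := by
    have e1 : (P * |Real.sin (t - t')|) ^ 2 = (qq X Y t) ^ 2 + (qq X Y t') ^ 2
        - 2 * qq X Y t * qq X Y t' * Real.cos (t - t') := by
      rw [mul_pow, sq_abs, hP2, Real.sin_sub, Real.cos_sub]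
      unfold qq
      have s1 := Real.sin_sq_add_cos_sq t
      have s2 := Real.sin_sq_add_cos_sq t'
      have c1 : Real.cos t ^ 2 = 1 - Real.sin t ^ 2 := by linarith
      have c2 : Real.cos t' ^ 2 = 1 - Real.sin t' ^ 2 := by linarith
      ring_nf
      simp only [c1, c2]
      ring
    rw [e1, add_sq, sq_abs, sq_abs]
    have h2 : |qq X Y t * qq X Y t' * Real.cos (t - t')| ≤ |qq X Y t| * |qq X Y t'| := by
      rw [abs_mul, abs_mul]
      exact mul_le_of_le_one_right (by positivity) (Real.abs_cos_le_one _)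
    have h3 := neg_abs_le (qq X Y t * qq X Y t' * Real.cos (t - t'))
    nlinarith
  exact (pow_le_pow_iff_left₀ (by positivity) (by positivity) two_ne_zero).mp h1

/-- The size of the factor `1 - w²`. -/
theorem norm_one_sub_sq_le (Z p P s2 : ℝ) (hP : 0 ≤ P) (hp : |p| ≤ P) (hs2 : s2 = Z ^ 2 + P ^ 2)
    (hs : s2 ≤ 1) : ‖1 - ((Z : ℂ) + I * (p : ℂ)) ^ 2‖ ≤ (1 - s2) + 4 * P := by
  have hZ1 : |Z| ≤ 1 := by
    rw [← sq_le_one_iff_abs_le_one]
    nlinarith [sq_nonneg P]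
  have hP1 : P ≤ 1 := by nlinarith [sq_nonneg Z]
  have hp2 : p ^ 2 ≤ P ^ 2 := by
    rw [← sq_abs p]
    exact pow_le_pow_left₀ (abs_nonneg _) hp 2
  have h1 : 1 - ((Z : ℂ) + I * (p : ℂ)) ^ 2
      = ((1 - Z ^ 2 + p ^ 2 : ℝ) : ℂ) + ((-(2 * Z * p) : ℝ) : ℂ) * I := by
    push_cast
    linear_combination (-(p : ℂ) ^ 2) * Complex.I_sq
  rw [h1]
  refine (norm_add_le _ _).trans ?_
  rw [norm_mul, Complex.norm_I, mul_one, Complex.norm_real, Complex.norm_real, Real.norm_eq_abs,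
    Real.norm_eq_abs]
  have h2 : |1 - Z ^ 2 + p ^ 2| = 1 - Z ^ 2 + p ^ 2 := by
    apply abs_of_nonneg
    nlinarith [sq_nonneg P, sq_nonneg p]
  have h3 : |-(2 * Z * p)| ≤ 2 * P := by
    rw [abs_neg, abs_mul, abs_mul, abs_two]
    have := mul_le_mul hZ1 hp (abs_nonneg _) zero_le_one
    nlinarith
  rw [h2]
  nlinarith

theorem norm_w_sq (Z p : ℝ) : ‖(Z : ℂ) + I * (p : ℂ)‖ ^ 2 = Z ^ 2 + p ^ 2 := by
  rw [← Complex.normSq_eq_norm_sq, Complex.normSq_apply]
  simp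
  ring

/-- The trivial bound for a term. -/
theorem term_le_two (Z p : ℝ) (h : Z ^ 2 + p ^ 2 ≤ 1) (m : ℕ) :
    ‖((Z : ℂ) + I * (p : ℂ)) ^ (2 * m) * (1 - ((Z : ℂ) + I * (p : ℂ)) ^ 2)‖ ≤ 2 := by
  set w := (Z : ℂ) + I * (p : ℂ) with hw
  have h1 : ‖w‖ ^ 2 ≤ 1 := by rw [hw, norm_w_sq]; exact h
  have h2 : ‖w‖ ≤ 1 := by nlinarith [norm_nonneg w]
  rw [norm_mul, norm_pow]
  have h3 : ‖w‖ ^ (2 * m) ≤ 1 := pow_le_one₀ (norm_nonneg _) h2
  have h4 : ‖1 - w ^ 2‖ ≤ 2 := by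
    refine (norm_sub_le _ _).trans ?_
    rw [norm_one, norm_pow]
    linarith
  calc ‖w‖ ^ (2 * m) * ‖1 - w ^ 2‖ ≤ 1 * 2 := mul_le_mul h3 h4 (norm_nonneg _) zero_le_one
    _ = 2 := by ring

/-- The bound for a term away from the exceptional node. -/
theorem term_le_small (Z p q P : ℝ) (hP : 0 ≤ P) (hpq : P ^ 2 = p ^ 2 + q ^ 2)
    (h : Z ^ 2 + P ^ 2 ≤ 1) (M : ℕ) (hM : 1 ≤ M) (hq : P ≤ M * |q|) :
    ‖((Z : ℂ) + I * (p : ℂ)) ^ (2 * M ^ 4) * (1 - ((Z : ℂ) + I * (p : ℂ)) ^ 2)‖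
      ≤ 1 / M ^ 4 + 4 / M := by
  set w := (Z : ℂ) + I * (p : ℂ) with hw
  have hM0 : (0 : ℝ) < M := by exact_mod_cast hM
  have hM1 : (1 : ℝ) ≤ M := by exact_mod_cast hM
  set s2 := Z ^ 2 + P ^ 2 with hs2
  have hpP : |p| ≤ P := by
    apply abs_le_of_sq_le_sq _ hP
    nlinarith [sq_nonneg q]
  have h1 := norm_one_sub_sq_le Z p P s2 hP hpP hs2 h
  have hP1 : P ≤ 1 := by nlinarith [sq_nonneg Z]
  have hW : ‖w‖ ^ 2 = s2 - q ^ 2 := by rw [hw, norm_w_sq, hs2]; linarith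
  set m := M ^ 4 with hm
  set y := P / M with hy
  have hy0 : 0 ≤ y := by positivity
  have hy1 : y ≤ 1 := by
    rw [hy, div_le_one hM0]
    linarith
  have hyq : y ^ 2 ≤ q ^ 2 := by
    rw [← sq_abs q]
    apply pow_le_pow_left₀ hy0
    rw [hy, div_le_iff₀ hM0]
    linarith
  have hW1 : ‖w‖ ^ 2 ≤ s2 := by rw [hW]; nlinarith [sq_nonneg q]
  have hW2 : ‖w‖ ^ 2 ≤ 1 - y ^ 2 := by rw [hW]; nlinarith
  have hs20 : 0 ≤ s2 := by positivity
  have hWm1 : (‖w‖ ^ 2) ^ m ≤ s2 ^ m := pow_le_pow_left₀ (sq_nonneg _) hW1 m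
  have hWm2 : (‖w‖ ^ 2) ^ m ≤ (1 - y ^ 2) ^ m := pow_le_pow_left₀ (sq_nonneg _) hW2 m
  have hm0 : (0 : ℝ) < (m : ℝ) := by
    rw [hm]; push_cast; positivity
  have hA : s2 ^ m * (1 - s2) ≤ 1 / m := by
    rw [le_div_iff₀ hm0]
    have := pow_mul_one_sub_le s2 hs20 h m
    linarith
  have hB : y * (1 - y ^ 2) ^ m ≤ 1 / M ^ 2 := by
    have hv0 : 0 ≤ 1 - y ^ 2 := by nlinarith
    have hv1 : 1 - y ^ 2 ≤ 1 := by nlinarith [sq_nonneg y]
    have e1 := pow_mul_one_sub_le (1 - y ^ 2) hv0 hv1 m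
    have e2 : (1 - y ^ 2) ^ m ≤ 1 := pow_le_one₀ hv0 hv1
    have e3 : 0 ≤ (1 - y ^ 2) ^ m := pow_nonneg hv0 m
    have e4 : (y * (1 - y ^ 2) ^ m) ^ 2 ≤ (1 / M ^ 2) ^ 2 := by
      have e5 : (y * (1 - y ^ 2) ^ m) ^ 2 ≤ (1 - y ^ 2) ^ m * (1 - (1 - y ^ 2)) := by
        have : (y * (1 - y ^ 2) ^ m) ^ 2 = (y ^ 2 * (1 - y ^ 2) ^ m) * (1 - y ^ 2) ^ m := by ring
        rw [this]
        have e6 : (y ^ 2 * (1 - y ^ 2) ^ m) * (1 - y ^ 2) ^ m ≤ (y ^ 2 * (1 - y ^ 2) ^ m) * 1 :=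
          mul_le_mul_of_nonneg_left e2 (by positivity)
        linarith
      refine e5.trans ?_
      have e7 : (1 / (M : ℝ) ^ 2) ^ 2 = 1 / m := by
        rw [hm]; push_cast; ring
      rw [e7, le_div_iff₀ hm0]
      linarith
    exact (pow_le_pow_iff_left₀ (by positivity) (by positivity) two_ne_zero).mp e4
  rw [norm_mul, norm_pow, pow_mul]
  have hWm0 : 0 ≤ (‖w‖ ^ 2) ^ m := by positivity
  calc (‖w‖ ^ 2) ^ m * ‖1 - w ^ 2‖ ≤ (‖w‖ ^ 2) ^ m * ((1 - s2) + 4 * P) :=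
        mul_le_mul_of_nonneg_left h1 hWm0
    _ = (‖w‖ ^ 2) ^ m * (1 - s2) + 4 * P * (‖w‖ ^ 2) ^ m := by ring
    _ ≤ s2 ^ m * (1 - s2) + 4 * P * (1 - y ^ 2) ^ m := by
        apply add_le_add
        · exact mul_le_mul_of_nonneg_right hWm1 (by linarith)
        · exact mul_le_mul_of_nonneg_left hWm2 (by positivity)
    _ = s2 ^ m * (1 - s2) + 4 * M * (y * (1 - y ^ 2) ^ m) := by
        rw [hy]; field_simp
    _ ≤ 1 / m + 4 * M * (1 / M ^ 2) := by
        apply add_le_add hA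
        exact mul_le_mul_of_nonneg_left hB (by positivity)
    _ = 1 / M ^ 4 + 4 / M := by
        rw [hm]; push_cast; field_simp

/-- The peaked harmonic function. -/
def peak {n : ℕ} (a b c : Fin n) (M : ℕ) (x : EuclideanSpace ℝ (Fin n)) : ℂ :=
  (1 / 8 : ℂ) * ∑ j ∈ Finset.range M,
    ((ell a b c (node M j) x) ^ (2 * M ^ 4) * (1 - (ell a b c (node M j) x) ^ 2))

/-- Coordinates of a point of the unit ball. -/
theorem coord_sq_le {n : ℕ} (a b c : Fin n) (hab : a ≠ b) (hac : a ≠ c) (hbc : b ≠ c)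
    (x : EuclideanSpace ℝ (Fin n)) : x c ^ 2 + (x a ^ 2 + x b ^ 2) ≤ ‖x‖ ^ 2 := by
  rw [EuclideanSpace.norm_sq_eq]
  have h : ∑ i ∈ ({c, a, b} : Finset (Fin n)), ‖x i‖ ^ 2 ≤ ∑ i, ‖x i‖ ^ 2 :=
    Finset.sum_le_sum_of_subset_of_nonneg (Finset.subset_univ _) (fun i _ _ => by positivity)
  refine le_trans (le_of_eq ?_) h
  rw [Finset.sum_insert, Finset.sum_insert, Finset.sum_singleton]
  · simp only [Real.norm_eq_abs, sq_abs]
  · simp [hab]
  · simp [Ne.symm hac, Ne.symm hbc]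

theorem norm_peak_le_one {n : ℕ} (a b c : Fin n) (hab : a ≠ b) (hac : a ≠ c) (hbc : b ≠ c)
    (M : ℕ) (hM : 1 ≤ M) (x : EuclideanSpace ℝ (Fin n)) (hx : ‖x‖ ≤ 1) :
    ‖peak a b c M x‖ ≤ 1 := by
  have hM0 : (0 : ℝ) < M := by exact_mod_cast hM
  have hM1 : (1 : ℝ) ≤ M := by exact_mod_cast hM
  have hx2 : ‖x‖ ^ 2 ≤ 1 := pow_le_one₀ (norm_nonneg _) hx
  have hco := (coord_sq_le a b c hab hac hbc x).trans hx2
  set P := Real.sqrt (x a ^ 2 + x b ^ 2) with hP
  have hP0 : 0 ≤ P := Real.sqrt_nonneg _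
  have hP2 : P ^ 2 = x a ^ 2 + x b ^ 2 := Real.sq_sqrt (by positivity)
  set T : ℕ → ℂ := fun j =>
    ((ell a b c (node M j) x) ^ (2 * M ^ 4) * (1 - (ell a b c (node M j) x) ^ 2)) with hT
  have hpq : ∀ t, P ^ 2 = (Real.cos t * x a + Real.sin t * x b) ^ 2 + (qq (x a) (x b) t) ^ 2 := by
    intro t
    rw [hP2]
    unfold qq
    have s1 := Real.sin_sq_add_cos_sq t
    have : (Real.cos t * x a + Real.sin t * x b) ^ 2 + (Real.sin t * x a - Real.cos t * x b) ^ 2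
        = (Real.sin t ^ 2 + Real.cos t ^ 2) * (x a ^ 2 + x b ^ 2) := by ring
    rw [this, s1, one_mul]
  have hT2 : ∀ j, ‖T j‖ ≤ 2 := by
    intro j
    rw [hT]
    simp only
    rw [ell_apply]
    apply term_le_two
    have := hpq (node M j)
    nlinarith [sq_nonneg (qq (x a) (x b) (node M j))]
  have hTs : ∀ j, P ≤ M * |qq (x a) (x b) (node M j)| → ‖T j‖ ≤ 1 / M ^ 4 + 4 / M := by
    intro j hj
    rw [hT]
    simp only
    rw [ell_apply]
    exact term_le_small _ _ (qq (x a) (x b) (node M j)) P hP0 (hpq _)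
      (by rw [hP2]; exact hco) M hM hj
  -- at most one exceptional node
  set bad := (Finset.range M).filter (fun j => M * |qq (x a) (x b) (node M j)| < P) with hbad
  have hcard : bad.card ≤ 1 := by
    rw [Finset.card_le_one]
    intro j hj l hl
    by_contra hne
    rw [hbad, Finset.mem_filter, Finset.mem_range] at hj hl
    have h1 := sin_node_sub M j l hj.1 hl.1 hne
    have h2 := qq_two (x a) (x b) (node M j) (node M l) P hP0 hP2
    have h3 : P * (2 / M) ≤ P * |Real.sin (node M j - node M l)| :=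
      mul_le_mul_of_nonneg_left h1 hP0
    have h4 : P * (2 / M) * M ≤ (|qq (x a) (x b) (node M j)| + |qq (x a) (x b) (node M l)|) * M :=
      mul_le_mul_of_nonneg_right (h3.trans h2) hM0.le
    have h5 : P * (2 / M) * M = 2 * P := by field_simp
    rw [h5] at h4
    nlinarith [hj.2, hl.2]
  have hB0 : (0 : ℝ) ≤ 1 / M ^ 4 + 4 / M := by positivity
  have hbound : ∀ j ∈ Finset.range M, ‖T j‖ ≤ (1 / M ^ 4 + 4 / M) + (if j ∈ bad then 2 else 0) := by
    intro j hj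
    by_cases h : j ∈ bad
    · rw [if_pos h]
      linarith [hT2 j]
    · rw [if_neg h, add_zero]
      apply hTs
      rw [hbad, Finset.mem_filter, not_and, not_lt] at h
      exact h hj
  have hsum : ∑ j ∈ Finset.range M, ((1 / (M : ℝ) ^ 4 + 4 / M) + (if j ∈ bad then (2 : ℝ) else 0))
      ≤ 7 := by
    rw [Finset.sum_add_distrib, Finset.sum_const, Finset.card_range, nsmul_eq_mul]
    have h6 : ∑ j ∈ Finset.range M, (if j ∈ bad then (2 : ℝ) else 0) ≤ 2 := by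
      rw [← Finset.sum_filter]
      have h7 : (Finset.range M).filter (fun j => j ∈ bad) = bad := by
        ext j
        rw [Finset.mem_filter]
        constructor
        · exact fun h => h.2
        · intro h
          exact ⟨(Finset.mem_filter.mp h).1, h⟩
      rw [h7, Finset.sum_const, nsmul_eq_mul]
      have : (bad.card : ℝ) ≤ 1 := by exact_mod_cast hcard
      linarith
    have h8 : (M : ℝ) * (1 / M ^ 4 + 4 / M) = 1 / M ^ 3 + 4 := by
      field_simp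
    have h9 : 1 / (M : ℝ) ^ 3 ≤ 1 := by
      rw [div_le_one (by positivity)]
      exact one_le_pow₀ hM1
    linarith
  unfold peak
  rw [norm_mul]
  have h10 : ‖∑ j ∈ Finset.range M, T j‖ ≤ 7 := (norm_sum_le_of_le _ hbound).trans hsum
  have h11 : ‖(1 / 8 : ℂ)‖ = 1 / 8 := by norm_num
  rw [h11]
  linarith

end

end Pool.Agent.Q166.TB
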