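import Pool.Agent.Q166.TB.NoK

/-!
# A finite constant with the Hadamard exponent in the plane
-/

namespace Pool.Agent.Q166.TB

open Complex InnerProductSpace Metric Topology

noncomputable section

/-- The Taylor coefficients at the origin. -/
def tc (A : ℂ → ℂ) (k : ℕ) : ℂ := (k.factorial : ℂ)⁻¹ * iteratedDeriv k A 0

theorem tc_avg {A : ℂ → ℂ} (hA : DifferentiableOn ℂ A (ball 0 1)) {R : ℝ} (hR : 0 < R)
    (hR1 : R < 1) (k : ℕ) :
    Real.circleAverage (fun z => (z ^ k)⁻¹ * A z) 0 R = tc A k := by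
  have h1 : DifferentiableOn ℂ A (closedBall 0 R) := hA.mono (closedBall_subset_ball hR1)
  have h2 := h1.circleIntegral_one_div_sub_center_pow_smul hR k
  rw [Real.circleAverage_eq_circleIntegral hR.ne']
  have h3 : (∮ z in C(0, R), (z - 0)⁻¹ • ((z ^ k)⁻¹ * A z))
      = ∮ z in C(0, R), (1 / (z - 0) ^ (k + 1)) • A z := by
    congr 1
    funext z
    simp only [sub_zero, smul_eq_mul, one_div, pow_succ, mul_inv]
    ring
  rw [h3, h2, smul_eq_mul, smul_eq_mul, tc]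
  have h4 : (2 * (Real.pi : ℂ) * I) ≠ 0 := by
    simp [Real.pi_ne_zero]
  field_simp

theorem avg_conj {B : ℂ → ℂ} (hB : DifferentiableOn ℂ B (ball 0 1)) {R : ℝ} (hR : 0 < R)
    (hR1 : R < 1) (k : ℕ) (hk : k ≠ 0) :
    Real.circleAverage (fun z => (z ^ k)⁻¹ * (starRingEnd ℂ) (B z)) 0 R = 0 := by
  have h1 : DifferentiableOn ℂ (fun z => z ^ k * B z) (closedBall 0 R) :=
    (differentiableOn_id.pow k).mul (hB.mono (closedBall_subset_ball hR1))
  have h2 : DiffContOnCl ℂ (fun z => z ^ k * B z) (ball 0 |R|) := by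
    rw [abs_of_pos hR]
    exact (h1.mono closure_ball_subset_closedBall).diffContOnCl
  have h3 := h2.circleAverage
  have h4 : CircleIntegrable (fun z => z ^ k * B z) 0 R := by
    apply ContinuousOn.circleIntegrable hR.le
    exact h1.continuousOn.mono sphere_subset_closedBall
  have h5 := ContinuousLinearMap.circleAverage_comp_comm (Complex.conjCLE : ℂ →L[ℝ] ℂ) h4
  have h6 : Real.circleAverage (fun z => (z ^ k)⁻¹ * (starRingEnd ℂ) (B z)) 0 R
      = Real.circleAverage (((R : ℂ) ^ (2 * k))⁻¹ • ((Complex.conjCLE : ℂ →L[ℝ] ℂ) ∘ fun z => z ^ k * B z)) 0 R := by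
    apply Real.circleAverage_congr_sphere
    intro z hz
    rw [abs_of_pos hR, mem_sphere_zero_iff_norm] at hz
    have hz0 : z ≠ 0 := by
      rintro rfl
      rw [norm_zero] at hz
      exact hR.ne hz
    have e1 : (R : ℂ) ^ (2 * k) = z ^ k * (starRingEnd ℂ) z ^ k := by
      rw [← mul_pow, Complex.mul_conj, Complex.normSq_eq_norm_sq, hz, pow_mul]
      push_cast
      rfl
    have hz1 : (starRingEnd ℂ) z ^ k ≠ 0 := pow_ne_zero _ ((map_ne_zero _).mpr hz0)
    have hz2 : z ^ k ≠ 0 := pow_ne_zero _ hz0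
    simp only [Pi.smul_apply, Function.comp, smul_eq_mul]
    rw [show (Complex.conjCLE : ℂ →L[ℝ] ℂ) (z ^ k * B z) = (starRingEnd ℂ) (z ^ k * B z) from rfl,
      map_mul, map_pow, e1]
    field_simp
  rw [h6, Real.circleAverage_smul, h5, h3]
  simp [hk]

/-- The key bound on the Taylor coefficients. -/
theorem tc_bound {A B v : ℂ → ℂ} (hA : DifferentiableOn ℂ A (ball 0 1))
    (hB : DifferentiableOn ℂ B (ball 0 1))
    (hv : ∀ z ∈ ball (0 : ℂ) 1, v z = A z + (starRingEnd ℂ) (B z)) {s M : ℝ} (hs : 0 < s)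
    (hs1 : s ≤ 1) (hM : ∀ z, ‖z‖ < s → ‖v z‖ ≤ M) (k : ℕ) (hk : k ≠ 0) :
    ‖tc A k‖ * s ^ k ≤ M := by
  have key : ∀ R ∈ Set.Ioo 0 s, ‖tc A k‖ * R ^ k ≤ M := by
    rintro R ⟨hR, hRs⟩
    have hR1 : R < 1 := lt_of_lt_of_le hRs hs1
    have hsub : sphere (0 : ℂ) R ⊆ ball 0 1 := (sphere_subset_closedBall).trans
      (closedBall_subset_ball hR1)
    have hinv : ContinuousOn (fun z : ℂ => (z ^ k)⁻¹) (sphere (0 : ℂ) R) := by
      apply ContinuousOn.inv₀ (by fun_prop)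
      intro z hz
      rw [mem_sphere_zero_iff_norm] at hz
      apply pow_ne_zero
      rintro rfl
      rw [norm_zero] at hz
      exact hR.ne hz
    have i1 : CircleIntegrable (fun z => (z ^ k)⁻¹ * A z) 0 R := by
      apply ContinuousOn.circleIntegrable hR.le
      exact hinv.mul (hA.continuousOn.mono hsub)
    have i2 : CircleIntegrable (fun z => (z ^ k)⁻¹ * (starRingEnd ℂ) (B z)) 0 R := by
      apply ContinuousOn.circleIntegrable hR.le
      exact hinv.mul (Complex.continuous_conj.comp_continuousOn (hB.continuousOn.mono hsub))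
    have h1 := Real.circleAverage_fun_add i1 i2
    rw [tc_avg hA hR hR1 k, avg_conj hB hR hR1 k hk, add_zero] at h1
    rw [← h1, Real.circleAverage_def, norm_smul, Real.norm_of_nonneg (by positivity)]
    have h2 : ‖∫ θ in (0 : ℝ)..2 * Real.pi, ((circleMap 0 R θ ^ k)⁻¹ * A (circleMap 0 R θ)
        + (circleMap 0 R θ ^ k)⁻¹ * (starRingEnd ℂ) (B (circleMap 0 R θ)))‖
        ≤ (M * (R ^ k)⁻¹) * |2 * Real.pi - 0| := by
      apply intervalIntegral.norm_integral_le_of_norm_le_const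
      intro θ _
      have hn : ‖circleMap 0 R θ‖ = R := by
        rw [norm_circleMap_zero, abs_of_pos hR]
      have hmem : circleMap 0 R θ ∈ ball (0 : ℂ) 1 := by
        rw [mem_ball_zero_iff, hn]; exact hR1
      rw [← mul_add, ← hv _ hmem, norm_mul, norm_inv, norm_pow, hn, mul_comm]
      apply mul_le_mul_of_nonneg_right _ (by positivity)
      exact hM _ (by rw [hn]; exact hRs)
    have hpi := Real.pi_pos
    rw [sub_zero, abs_of_pos (by positivity)] at h2
    have hRk : 0 < R ^ k := by positivity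
    calc (2 * Real.pi)⁻¹ * _ * R ^ k ≤ (2 * Real.pi)⁻¹ * ((M * (R ^ k)⁻¹) * (2 * Real.pi)) * R ^ k := by
          apply mul_le_mul_of_nonneg_right _ hRk.le
          apply mul_le_mul_of_nonneg_left h2 (by positivity)
      _ = M := by field_simp
  have h3 : Filter.Tendsto (fun R : ℝ => ‖tc A k‖ * R ^ k) (nhdsWithin s (Set.Iio s))
      (nhds (‖tc A k‖ * s ^ k)) := by
    apply Filter.Tendsto.mono_left _ nhdsWithin_le_nhds
    apply Continuous.tendsto
    fun_prop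
  refine le_of_tendsto h3 ?_
  filter_upwards [Ioo_mem_nhdsLT hs] with R hR
  exact key R hR

theorem laplacian_comp_iso (ι : ℂ ≃ₗᵢ[ℝ] EuclideanSpace ℝ (Fin 2))
    (u : EuclideanSpace ℝ (Fin 2) → ℂ) (w : ℂ) :
    Laplacian.laplacian (u ∘ ι) w = Laplacian.laplacian u (ι w) := by
  rw [laplacian_eq_iteratedFDeriv_orthonormalBasis (u ∘ ι) Complex.orthonormalBasisOneI,
    laplacian_eq_iteratedFDeriv_orthonormalBasis u (Complex.orthonormalBasisOneI.map ι)]
  have h1 : iteratedFDeriv ℝ 2 (u ∘ ι) w =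
      (iteratedFDeriv ℝ 2 u (ι w)).compContinuousLinearMap
        fun _ => (ι.toContinuousLinearEquiv : ℂ →L[ℝ] EuclideanSpace ℝ (Fin 2)) := by
    rw [← iteratedFDerivWithin_univ, ← iteratedFDerivWithin_univ]
    exact ι.toContinuousLinearEquiv.iteratedFDerivWithin_comp_right u uniqueDiffOn_univ
      (Set.mem_univ _) 2
  apply Finset.sum_congr rfl
  intro i _
  simp only [h1, ContinuousMultilinearMap.compContinuousLinearMap_apply]
  congr 1
  funext j
  fin_cases j <;> simp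

theorem harmonicAt_comp_iso (ι : ℂ ≃ₗᵢ[ℝ] EuclideanSpace ℝ (Fin 2))
    {u : EuclideanSpace ℝ (Fin 2) → ℂ} {z : ℂ} (h : HarmonicAt u (ι z)) :
    HarmonicAt (u ∘ ι) z := by
  refine ⟨h.1.comp z (ι.toContinuousLinearEquiv.contDiff.contDiffAt), ?_⟩
  have h2 := (ι.continuous.tendsto z).eventually h.2
  filter_upwards [h2] with w hw
  simp only [laplacian_comp_iso, hw, Pi.zero_apply]

theorem exists_decomp {v : ℂ → ℂ} (hv : HarmonicOnNhd v (ball 0 1)) :
    ∃ A B : ℂ → ℂ, DifferentiableOn ℂ A (ball 0 1) ∧ DifferentiableOn ℂ B (ball 0 1) ∧ B 0 = 0 ∧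
      ∀ z ∈ ball (0 : ℂ) 1, v z = A z + (starRingEnd ℂ) (B z) := by
  have h1 : HarmonicOnNhd (Complex.reCLM ∘ v) (ball 0 1) := fun z hz => (hv z hz).comp_CLM _
  have h2 : HarmonicOnNhd (Complex.imCLM ∘ v) (ball 0 1) := fun z hz => (hv z hz).comp_CLM _
  obtain ⟨F1, hF1, e1⟩ := HarmonicOnNhd.exists_analyticOnNhd_ball_re_eq h1
  obtain ⟨F2, hF2, e2⟩ := HarmonicOnNhd.exists_analyticOnNhd_ball_re_eq h2
  have d1 : DifferentiableOn ℂ F1 (ball 0 1) := hF1.differentiableOn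
  have d2 : DifferentiableOn ℂ F2 (ball 0 1) := hF2.differentiableOn
  refine ⟨fun z => (F1 z + I * F2 z) / 2 + (starRingEnd ℂ) ((F1 0 - I * F2 0) / 2),
    fun z => (F1 z - I * F2 z) / 2 - (F1 0 - I * F2 0) / 2, by fun_prop, by fun_prop, by simp, ?_⟩
  intro z hz
  have e1' : (F1 z).re = (v z).re := e1 hz
  have e2' : (F2 z).re = (v z).im := e2 hz
  rw [map_sub]
  have c1 : (starRingEnd ℂ) ((F1 z - I * F2 z) / 2)
      = ((starRingEnd ℂ) (F1 z) + I * (starRingEnd ℂ) (F2 z)) / 2 := by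
    rw [map_div₀, map_sub, map_mul, Complex.conj_I, map_ofNat]
    ring
  have e3 : (F1 z + I * F2 z) / 2 + (starRingEnd ℂ) ((F1 z - I * F2 z) / 2) = v z := by
    rw [c1]
    have c2 := Complex.add_conj (F1 z)
    have c3 := Complex.add_conj (F2 z)
    rw [e1'] at c2
    rw [e2'] at c3
    have c4 := Complex.re_add_im (v z)
    push_cast at c2 c3
    linear_combination (1 / 2 : ℂ) * c2 + (I / 2) * c3 + c4
  rw [← e3]
  ring

theorem head_sum {ρ r δ : ℝ} (hρ : 0 < ρ) (hρr : ρ < r)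
    (m : ℕ → ℝ) (hm2 : ∀ k, m k * ρ ^ k ≤ δ) (N : ℕ) (hδN : δ ≤ ρ ^ N) :
    ∑ k ∈ Finset.range (N + 1), m k * r ^ k ≤ r ^ (N + 1) * (1 / (r - ρ)) := by
  have hr0 : 0 < r := hρ.trans hρr
  have hd1 : 0 < r - ρ := by linarith
  have hq0 : 0 ≤ ρ / r := by positivity
  have hq1 : ρ / r < 1 := (div_lt_one hr0).mpr hρr
  have s1 : ∀ k ∈ Finset.range (N + 1), m k * r ^ k ≤ r ^ N * (ρ / r) ^ (N - k) := by
    intro k hk
    have hk' : k ≤ N := by
      have := Finset.mem_range.mp hk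
      omega
    obtain ⟨j, rfl⟩ := Nat.exists_eq_add_of_le hk'
    have e1 : k + j - k = j := by omega
    rw [e1, div_pow, pow_add]
    have h1 : m k * ρ ^ k ≤ ρ ^ k * ρ ^ j := by
      rw [← pow_add]
      exact (hm2 k).trans hδN
    have h2 : m k ≤ ρ ^ j := by
      have h3 : 0 < ρ ^ k := by positivity
      nlinarith
    have h4 : r ^ k * r ^ j * (ρ ^ j / r ^ j) = ρ ^ j * r ^ k := by
      field_simp
    rw [h4]
    exact mul_le_mul_of_nonneg_right h2 (by positivity)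
  have s2 : ∑ k ∈ Finset.range (N + 1), r ^ N * (ρ / r) ^ (N - k)
      = ∑ j ∈ Finset.range (N + 1), r ^ N * (ρ / r) ^ j := by
    rw [← Finset.sum_range_reflect (fun j => r ^ N * (ρ / r) ^ j) (N + 1)]
    apply Finset.sum_congr rfl
    intro k hk
    rw [show N + 1 - 1 - k = N - k by omega]
  have s3 : ∑ j ∈ Finset.range (N + 1), (ρ / r) ^ j ≤ (1 - ρ / r)⁻¹ := by
    rw [← tsum_geometric_of_lt_one hq0 hq1]
    exact (summable_geometric_of_lt_one hq0 hq1).sum_le_tsum _ (fun _ _ => by positivity)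
  have s4 : r ^ N * (1 - ρ / r)⁻¹ = r ^ (N + 1) * (1 / (r - ρ)) := by
    have : r - ρ ≠ 0 := hd1.ne'
    have h5 : 1 - ρ / r = (r - ρ) / r := by field_simp
    rw [h5, pow_succ, inv_div]
    ring
  refine (Finset.sum_le_sum s1).trans ?_
  rw [s2, ← Finset.mul_sum, ← s4]
  exact mul_le_mul_of_nonneg_left s3 (by positivity)

/-- The numerical bound. -/
theorem sum_bound {ρ r δ : ℝ} (hρ : 0 < ρ) (hρr : ρ < r) (hr : r < 1) (hδ : 0 ≤ δ)
    (m : ℕ → ℝ) (hm0 : ∀ k, 0 ≤ m k) (hm1 : ∀ k, m k ≤ 1)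
    (hm2 : ∀ k, m k * ρ ^ k ≤ δ) :
    Summable (fun k => m k * r ^ k) ∧
      ∑' k, m k * r ^ k ≤ (1 / (r - ρ) + 1 / (1 - r)) * δ ^ (Real.log r / Real.log ρ) := by
  have hr0 : 0 < r := hρ.trans hρr
  have hρ1 : ρ < 1 := hρr.trans hr
  have hgeo : Summable (fun k : ℕ => r ^ k) := summable_geometric_of_lt_one hr0.le hr
  have hs : Summable (fun k => m k * r ^ k) := by
    apply Summable.of_nonneg_of_le _ _ hgeo
    · intro k
      exact mul_nonneg (hm0 k) (by positivity)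
    · intro k
      exact mul_le_of_le_one_left (by positivity) (hm1 k)
  refine ⟨hs, ?_⟩
  have hβ0 := beta_pos hρ hρr hr
  rcases eq_or_lt_of_le hδ with hδ0 | hδ0
  · subst hδ0
    have hz : ∀ k, m k * r ^ k = 0 := by
      intro k
      have h1 : m k * ρ ^ k ≤ 0 := hm2 k
      have h2 : 0 < ρ ^ k := by positivity
      have h3 : m k = 0 := le_antisymm (by nlinarith) (hm0 k)
      rw [h3, zero_mul]
    simp only [hz, tsum_zero]
    rw [Real.zero_rpow hβ0.ne', mul_zero]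
  · have hex : ∃ n : ℕ, ρ ^ n ≤ δ := by
      obtain ⟨n, hn⟩ := exists_pow_lt_of_lt_one hδ0 hρ1
      exact ⟨n, hn.le⟩
    classical
    set N := Nat.find hex with hN
    have hNspec : ρ ^ N ≤ δ := Nat.find_spec hex
    have hNmin : ∀ k < N, δ < ρ ^ k := fun k hk => not_le.mp (Nat.find_min hex hk)
    have hrN : r ^ N ≤ δ ^ (Real.log r / Real.log ρ) := by
      have h1 : (ρ ^ N) ^ (Real.log r / Real.log ρ) = r ^ N := by
        rw [← Real.rpow_natCast, ← Real.rpow_mul hρ.le, mul_comm, Real.rpow_mul hρ.le,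
          rpow_beta hρ hρr hr, Real.rpow_natCast]
      rw [← h1]
      exact Real.rpow_le_rpow (by positivity) hNspec hβ0.le
    have hd1 : 0 < r - ρ := by linarith
    have hd2 : 0 < 1 - r := by linarith
    have hq0 : 0 ≤ ρ / r := by positivity
    have hq1 : ρ / r < 1 := (div_lt_one hr0).mpr hρr
    rw [← hs.sum_add_tsum_nat_add N]
    have p1 : ∑ k ∈ Finset.range N, m k * r ^ k ≤ r ^ N * (1 / (r - ρ)) := by
      rcases Nat.eq_zero_or_pos N with h0 | hpos
      · rw [h0]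
        simp
        linarith
      · obtain ⟨N', hN'⟩ : ∃ N', N = N' + 1 := ⟨N - 1, by omega⟩
        rw [hN']
        exact head_sum hρ hρr m hm2 N' (hNmin N' (by omega)).le
    have p2 : ∑' k, m (k + N) * r ^ (k + N) ≤ r ^ N * (1 / (1 - r)) := by
      rw [one_div, ← tsum_geometric_of_lt_one hr0.le hr, ← tsum_mul_left]
      apply Summable.tsum_le_tsum
      · intro k
        rw [pow_add]
        have := hm1 (k + N)
        calc m (k + N) * (r ^ k * r ^ N) ≤ 1 * (r ^ k * r ^ N) :=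
              mul_le_mul_of_nonneg_right this (by positivity)
          _ = _ := by ring
      · exact (summable_nat_add_iff N).mpr hs
      · exact hgeo.mul_left _
    calc _ ≤ r ^ N * (1 / (r - ρ)) + r ^ N * (1 / (1 - r)) := add_le_add p1 p2
      _ = (1 / (r - ρ) + 1 / (1 - r)) * r ^ N := by ring
      _ ≤ _ := mul_le_mul_of_nonneg_left hrN (by positivity)

/-- **A finite constant exists in the plane.** -/
theorem hasConstant_two (ρ r : ℝ) (hρ : 0 < ρ) (hρr : ρ < r) (hr : r < 1) :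
    HasConstant 2 ρ r := by
  refine ⟨2 * (1 / (r - ρ) + 1 / (1 - r)), ?_⟩
  rintro u ⟨hu, hu1⟩
  have hr0 : 0 < r := hρ.trans hρr
  have hρ1 : ρ < 1 := hρr.trans hr
  have hbdd : BddAbove ((fun x => ‖u x‖) '' Metric.ball (0 : EuclideanSpace ℝ (Fin 2)) 1) := by
    by_contra hcon
    have : supNorm u 1 = 0 := Real.sSup_of_not_bddAbove hcon
    rw [hu1] at this
    exact one_ne_zero this
  have hb1 : ∀ x : EuclideanSpace ℝ (Fin 2), ‖x‖ < 1 → ‖u x‖ ≤ 1 := fun x hx => by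
    rw [← hu1]; exact le_supNorm_of_mem hbdd hx
  set δ := supNorm u ρ with hδ
  have hδ0 : 0 ≤ δ := supNorm_nonneg _ _
  have hbρ : ∀ x : EuclideanSpace ℝ (Fin 2), ‖x‖ < ρ → ‖u x‖ ≤ δ := fun x hx =>
    le_supNorm_of_mem (bddAbove_of (C := 1) fun y hy => hb1 y (hy.trans hρ1)) hx
  set ι : ℂ ≃ₗᵢ[ℝ] EuclideanSpace ℝ (Fin 2) := Complex.orthonormalBasisOneI.repr with hι
  have hv : HarmonicOnNhd (u ∘ ι) (ball 0 1) := by
    intro z hz
    apply harmonicAt_comp_iso
    apply hu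
    rw [mem_ball_zero_iff, ι.norm_map]
    exact mem_ball_zero_iff.mp hz
  obtain ⟨A, B, hA, hB, hB0, hAB⟩ := exists_decomp hv
  have hv1 : ∀ z : ℂ, ‖z‖ < 1 → ‖(u ∘ ι) z‖ ≤ 1 := fun z hz => hb1 _ (by rwa [ι.norm_map])
  have hvρ : ∀ z : ℂ, ‖z‖ < ρ → ‖(u ∘ ι) z‖ ≤ δ := fun z hz => hbρ _ (by rwa [ι.norm_map])
  -- the conjugate function
  have hBA : ∀ z ∈ ball (0 : ℂ) 1, (starRingEnd ℂ) ((u ∘ ι) z) = B z + (starRingEnd ℂ) (A z) := by
    intro z hz
    rw [hAB z hz, map_add, Complex.conj_conj, add_comm]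
  have hA0 : A 0 = (u ∘ ι) 0 := by
    rw [hAB 0 (mem_ball_self one_pos), hB0]
    simp
  have tcA0 : tc A 0 = (u ∘ ι) 0 := by simp [tc, hA0]
  have tcB0 : tc B 0 = 0 := by simp [tc, hB0]
  have a1 : ∀ k, ‖tc A k‖ ≤ 1 := by
    intro k
    rcases eq_or_ne k 0 with rfl | hk
    · rw [tcA0]; exact hv1 0 (by simp)
    · have := tc_bound hA hB hAB one_pos le_rfl hv1 k hk
      simpa using this
  have a2 : ∀ k, ‖tc A k‖ * ρ ^ k ≤ δ := by
    intro k
    rcases eq_or_ne k 0 with rfl | hk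
    · rw [tcA0, pow_zero, mul_one]; exact hvρ 0 (by simpa using hρ)
    · exact tc_bound hA hB hAB hρ hρ1.le hvρ k hk
  have b1 : ∀ k, ‖tc B k‖ ≤ 1 := by
    intro k
    rcases eq_or_ne k 0 with rfl | hk
    · rw [tcB0]; simp
    · have := tc_bound hB hA hBA one_pos le_rfl
        (fun z hz => by rw [RCLike.norm_conj]; exact hv1 z hz) k hk
      simpa using this
  have b2 : ∀ k, ‖tc B k‖ * ρ ^ k ≤ δ := by
    intro k
    rcases eq_or_ne k 0 with rfl | hk
    · rw [tcB0]; simpa using hδ0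
    · exact tc_bound hB hA hBA hρ hρ1.le
        (fun z hz => by rw [RCLike.norm_conj]; exact hvρ z hz) k hk
  obtain ⟨sA, tA⟩ := sum_bound hρ hρr hr hδ0 _ (fun k => norm_nonneg (tc A k)) a1 a2
  obtain ⟨sB, tB⟩ := sum_bound hρ hρr hr hδ0 _ (fun k => norm_nonneg (tc B k)) b1 b2
  have hval : ∀ {F : ℂ → ℂ}, DifferentiableOn ℂ F (ball 0 1) →
      Summable (fun k => ‖tc F k‖ * r ^ k) → ∀ z : ℂ, ‖z‖ < r →
      ‖F z‖ ≤ ∑' k, ‖tc F k‖ * r ^ k := by
    intro F hF hs z hz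
    have h1 := Complex.hasSum_taylorSeries_on_ball hF (mem_ball_zero_iff.mpr (hz.trans hr))
    refine h1.norm_le_of_bounded hs.hasSum ?_
    intro k
    have : (k.factorial : ℂ)⁻¹ • (z - 0) ^ k • iteratedDeriv k F 0 = tc F k * z ^ k := by
      simp only [tc, sub_zero, smul_eq_mul]
      ring
    rw [this, norm_mul, norm_pow]
    exact mul_le_mul_of_nonneg_left (pow_le_pow_left₀ (norm_nonneg _) hz.le k) (norm_nonneg _)
  apply supNorm_le hr0
  intro x hx
  have hx' : ‖ι.symm x‖ < r := by rwa [ι.symm.norm_map]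
  have hux : u x = A (ι.symm x) + (starRingEnd ℂ) (B (ι.symm x)) := by
    rw [← hAB _ (mem_ball_zero_iff.mpr (hx'.trans hr))]
    simp
  rw [hux]
  calc _ ≤ ‖A (ι.symm x)‖ + ‖(starRingEnd ℂ) (B (ι.symm x))‖ := norm_add_le _ _
    _ = ‖A (ι.symm x)‖ + ‖B (ι.symm x)‖ := by rw [RCLike.norm_conj]
    _ ≤ _ := add_le_add ((hval hA sA _ hx').trans tA) ((hval hB sB _ hx').trans tB)
    _ = _ := by ring

end

end Pool.Agent.Q166.TB
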